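import Mathlib

set_option autoImplicit false

namespace Pool.Agent.Results.MP_9e9a14_co.ATriangle

open Classical in
/-- The sum of the weights of the edges at the vertex `v`. -/
noncomputable def vertexSum {n : ℕ} (G : SimpleGraph (Fin n)) (w : G.edgeSet → ℕ) (v : Fin n) : ℕ :=
  ∑ e : G.edgeSet, if v ∈ (e : Sym2 (Fin n)) then w e else 0

/-- `w` is an edge weighting with weights in `{1, 2, 3}` that properly colours the vertices by
sums. -/
def IsProper3 {n : ℕ} (G : SimpleGraph (Fin n)) (w : G.edgeSet → ℕ) : Prop :=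
  (∀ e, w e = 1 ∨ w e = 2 ∨ w e = 3) ∧ ∀ u v, G.Adj u v → vertexSum G w u ≠ vertexSum G w v

/-- `G` has a proper 3-weighting and any two of them differ by an automorphism of `G`. -/
def Unique3 {n : ℕ} (G : SimpleGraph (Fin n)) : Prop :=
  (∃ w, IsProper3 G w) ∧ ∀ w w', IsProper3 G w → IsProper3 G w' →
    ∃ φ : G ≃g G, ∀ e, w' (φ.mapEdgeSet e) = w e

abbrev K3 : SimpleGraph (Fin 3) := ⊤

/-- the edge opposite to the vertex `i` -/
def opp (i : Fin 3) : K3.edgeSet := ⟨s(i + 1, i + 2), by revert i; decide⟩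

lemma opp_bij : Function.Bijective opp := by
  constructor
  · intro i j h
    have := congrArg Subtype.val h
    revert i j
    decide
  · rintro ⟨e, he⟩
    induction e using Sym2.ind with
    | _ a b =>
      have hab : a ≠ b := by simpa using he
      have : ∃ i : Fin 3, s(i + 1, i + 2) = s(a, b) := by
        revert a b
        decide
      obtain ⟨i, hi⟩ := this
      exact ⟨i, Subtype.ext hi⟩

lemma mem_opp (v i : Fin 3) : v ∈ (opp i : Sym2 (Fin 3)) ↔ v ≠ i := by
  simp only [opp, Sym2.mem_iff]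
  revert v i
  decide

lemma vertexSum_eq (w : K3.edgeSet → ℕ) (v : Fin 3) :
    vertexSum K3 w v + w (opp v) = w (opp 0) + w (opp 1) + w (opp 2) := by
  have h : vertexSum K3 w v = ∑ i : Fin 3, if v ≠ i then w (opp i) else 0 := by
    unfold vertexSum
    refine (@Fintype.sum_bijective _ _ _ _ (_) _ opp opp_bij _ _ (fun i => ?_)).symm
    by_cases h : v = i
    · rw [if_neg (not_not.2 h), if_neg (fun h' => (mem_opp v i).1 h' h)]
    · rw [if_pos h, if_pos ((mem_opp v i).2 h)]
  rw [h, Fin.sum_univ_three]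
  fin_cases v <;> simp <;> omega

lemma proper_iff (w : K3.edgeSet → ℕ) : IsProper3 K3 w ↔
    (∀ i, w (opp i) = 1 ∨ w (opp i) = 2 ∨ w (opp i) = 3) ∧
      Function.Injective (fun i => w (opp i)) := by
  constructor
  · rintro ⟨h1, h2⟩
    refine ⟨fun i => h1 _, fun i j hij => ?_⟩
    by_contra hne
    apply h2 i j hne
    have a := vertexSum_eq w i
    have b := vertexSum_eq w j
    simp only at hij
    omega
  · rintro ⟨h1, h2⟩
    refine ⟨fun e => ?_, fun u v huv h => huv (h2 ?_)⟩
    · obtain ⟨i, rfl⟩ := opp_bij.2 e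
      exact h1 i
    · have a := vertexSum_eq w u
      have b := vertexSum_eq w v
      simp only
      omega

lemma exists_perm (a b : Fin 3 → ℕ) (ha : ∀ i, a i = 1 ∨ a i = 2 ∨ a i = 3)
    (hb : ∀ i, b i = 1 ∨ b i = 2 ∨ b i = 3) (ia : Function.Injective a)
    (ib : Function.Injective b) : ∃ σ : Equiv.Perm (Fin 3), ∀ i, b (σ i) = a i := by
  let a' : Fin 3 → Fin 3 := fun i => ⟨a i - 1, by have := ha i; omega⟩
  let b' : Fin 3 → Fin 3 := fun i => ⟨b i - 1, by have := hb i; omega⟩
  have ia' : Function.Injective a' := fun i j h => ia (by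
    have := congrArg Fin.val h; have := ha i; have := ha j; simp only [a'] at *; omega)
  have ib' : Function.Injective b' := fun i j h => ib (by
    have := congrArg Fin.val h; have := hb i; have := hb j; simp only [b'] at *; omega)
  let A := Equiv.ofBijective a' (Finite.injective_iff_bijective.1 ia')
  let B := Equiv.ofBijective b' (Finite.injective_iff_bijective.1 ib')
  refine ⟨A.trans B.symm, fun i => ?_⟩
  have h : b' (B.symm (A i)) = a' i := B.apply_symm_apply (A i)
  have h2 := congrArg Fin.val h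
  have := ha i
  have := hb (B.symm (A i))
  simp only [a', b'] at h2
  change b (B.symm (A i)) = a i
  omega

/-- The triangle has exactly one proper sum-colouring 3-weighting up to isomorphism. -/
theorem result : ∃ (n : ℕ) (G : SimpleGraph (Fin n)), G.Connected ∧ G.edgeSet.Nonempty ∧
    Unique3 G := by
  refine ⟨3, K3, SimpleGraph.connected_top, ⟨_, (opp 0).2⟩, ?_, fun w w' hw hw' => ?_⟩
  · let E := Equiv.ofBijective opp opp_bij
    refine ⟨fun e => (E.symm e).val + 1, (proper_iff _).2 ⟨fun i => ?_, fun i j h => ?_⟩⟩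
    · have := (E.symm (opp i)).2
      omega
    · have h1 : E.symm (opp i) = i := E.symm_apply_apply i
      have h2 : E.symm (opp j) = j := E.symm_apply_apply j
      simp only [h1, h2] at h
      exact Fin.ext (by omega)
  · obtain ⟨a1, a2⟩ := (proper_iff w).1 hw
    obtain ⟨b1, b2⟩ := (proper_iff w').1 hw'
    obtain ⟨σ, hσ⟩ := exists_perm _ _ a1 b1 a2 b2
    refine ⟨SimpleGraph.Iso.completeGraph σ, fun e => ?_⟩
    obtain ⟨i, rfl⟩ := opp_bij.2 e
    rw [← hσ i]
    congr 1
    apply Subtype.ext
    ext v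
    rw [mem_opp]
    change v ∈ Sym2.map σ (opp i : Sym2 (Fin 3)) ↔ _
    rw [Sym2.mem_map]
    constructor
    · rintro ⟨u, hu, rfl⟩ h
      exact (mem_opp u i).1 hu (σ.injective h)
    · intro h
      refine ⟨σ.symm v, (mem_opp _ _).2 fun h' => h ?_, σ.apply_symm_apply v⟩
      rw [← h', σ.apply_symm_apply]

end Pool.Agent.Results.MP_9e9a14_co.ATriangle
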